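import Pool.Agent.H97.GEN.Core

/-!
# Families with almost independent generators, linear range: definitions

See `H97_LIN.md` in the team store.  `nc J j`: the members that have a strictly larger proper member
in their fibre at `j`.
-/

set_option autoImplicit false

namespace Pool.Agent.H97.LIN

open Finset Pool.Agent.H97.GEN

variable {α : Type*} [DecidableEq α]

/-- The members `A` with a larger member `B`, equal to `A` outside `j`, that does not contain `j`. -/
def nc (J : Finset (Finset α)) (j : Finset α) : Finset (Finset α) :=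
  (unions J).filter fun A => ∃ B ∈ unions J, A ⊂ B ∧ B \ j ⊆ A ∧ ¬ j ⊆ B

/-- The members `A` containing `j` that are alone in their fibre at `j`. -/
def alone (J : Finset (Finset α)) (j : Finset α) : Finset (Finset α) :=
  (unions J).filter fun A => j ⊆ A ∧ ∀ P ∈ unions J, P \ j = A \ j → P = A

/-- The members not containing `j` that contain the point `x`. -/
def prop (J : Finset (Finset α)) (j : Finset α) (x : α) : Finset (Finset α) :=
  (unions J).filter fun A => ¬ j ⊆ A ∧ x ∈ A

/-- `C` contains `i` and some member equal to `C` outside `i` misses `x` and `x'`. -/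
def good (J : Finset (Finset α)) (i : Finset α) (x x' : α) (C : Finset α) : Prop :=
  i ⊆ C ∧ ∃ P ∈ unions J, P \ i = C \ i ∧ x ∉ P ∧ x' ∉ P

instance (J : Finset (Finset α)) (i : Finset α) (x x' : α) (C : Finset α) :
    Decidable (good J i x x' C) := by unfold good; infer_instance

/-- The members of `Q` that meet `v` and are not contained in `v`. -/
def Par (Q : Finset (Finset α)) (v : Finset α) : Finset (Finset α) :=
  Q.filter fun j => ¬ Disjoint v j ∧ ¬ j ⊆ v

/-- The pairs `(A, j)`: `v` is not inside `A`, `v \ A ⊆ j`, `j` is not inside `A ∪ v`, and `A ∪ v` covers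
`A`. -/
def units (J Q : Finset (Finset α)) (v : Finset α) : Finset (Finset α × Finset α) :=
  (unions J ×ˢ Q).filter fun p => ¬ v ⊆ p.1 ∧ v \ p.1 ⊆ p.2 ∧ ¬ p.2 ⊆ p.1 ∪ v ∧
    ∀ C ∈ unions J, p.1 ⊆ C → C ⊆ p.1 ∪ v → C = p.1 ∨ C = p.1 ∪ v

lemma mem_units {J Q : Finset (Finset α)} {v A j : Finset α} :
    (A, j) ∈ units J Q v ↔ (A ∈ unions J ∧ j ∈ Q) ∧ ¬ v ⊆ A ∧ v \ A ⊆ j ∧ ¬ j ⊆ A ∪ v ∧
      ∀ C ∈ unions J, A ⊆ C → C ⊆ A ∪ v → C = A ∨ C = A ∪ v := by
  simp only [units, Finset.mem_filter, Finset.mem_product]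

lemma mem_Par {Q : Finset (Finset α)} {v j : Finset α} :
    j ∈ Par Q v ↔ j ∈ Q ∧ ¬ Disjoint v j ∧ ¬ j ⊆ v := Finset.mem_filter

/-- A member of `Q` for which there is a unit is partial. -/
lemma units_Par {J Q : Finset (Finset α)} {v A j : Finset α} (h : (A, j) ∈ units J Q v) :
    j ∈ Par Q v := by
  obtain ⟨⟨-, hj⟩, h1, h2, h3, -⟩ := mem_units.1 h
  refine mem_Par.2 ⟨hj, ?_, fun h => h3 (h.trans Finset.subset_union_right)⟩
  obtain ⟨x, hx, hxA⟩ := Finset.not_subset.1 h1
  exact Finset.not_disjoint_iff.2 ⟨x, hx, h2 (Finset.mem_sdiff.2 ⟨hx, hxA⟩)⟩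

end Pool.Agent.H97.LIN
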