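import Pool.Agent.H97.LIN.Defs

/-! Exact statements of the parts (interface only, not imported by the hand-in). -/

set_option autoImplicit false

namespace Pool.Agent.H97.LIN.Stubs

open Finset Pool.Agent.H97.GEN Pool.Agent.H97.LIN

variable {α : Type*} [DecidableEq α]

/-! ### Part 1 (helper66): file `Pool/Agent/H97/LIN/Fibre.lean` -/

theorem factF {J : Finset (Finset α)} {j : Finset α} (hj : j ∈ J) {x : α} (hx : x ∈ j)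
    (hb : fr (unions J) x ≤ nfr (unions J) x) :
    (alone J j).card + (prop J j x).card ≤ (nc J j).card := sorry

theorem bad_card {J : Finset (Finset α)} {i : Finset α} (hi : i ∈ J) {x x' : α} (hx : x ∈ i)
    (hx' : x' ∈ i) (hb : fr (unions J) x ≤ nfr (unions J) x)
    (hb' : fr (unions J) x' ≤ nfr (unions J) x') :
    ((unions J).filter fun C => x ∈ C ∧ ¬ good J i x x' C).card ≤ 3 * (nc J i).card := sorry

theorem sum_nc_le {V Q Q' : Finset (Finset α)} (hQ' : Q' ⊆ Q)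
    (hQ : ∀ G ∈ Q, ∀ G' ∈ Q, G' ≠ G → Disjoint G' G) :
    ∑ j ∈ Q', (nc (V ∪ Q) j).card ≤ ∑ v ∈ V, (units (V ∪ Q) Q' v).card := sorry

theorem isolated_of_nc {V Q : Finset (Finset α)} (hne : ∀ G ∈ V ∪ Q, G.Nonempty)
    (hirr : ∀ G ∈ V ∪ Q, G ∉ unions ((V ∪ Q).erase G))
    (hQ : ∀ G ∈ Q, ∀ G' ∈ Q, G' ≠ G → Disjoint G' G)
    {j : Finset α} (hj : j ∈ Q) (h0 : nc (V ∪ Q) j = ∅)
    (hb : ∀ x ∈ j, fr (unions (V ∪ Q)) x ≤ nfr (unions (V ∪ Q)) x) :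
    ∀ G ∈ V ∪ Q, G ≠ j → Disjoint G j := sorry

/-! ### Part 2 (helper83): file `Pool/Agent/H97/LIN/Match.lean` -/

theorem bmatching {ι κ : Type*} [DecidableEq ι] [DecidableEq κ] (Vs : Finset ι) (Qs : Finset κ)
    (N : ι → Finset κ) (hN : ∀ v ∈ Vs, N v ⊆ Qs) (d Λ : ℕ)
    (h : ∀ P ⊆ Qs, ∑ v ∈ Vs, (d - (N v \ P).card) ≤ Λ * P.card) :
    ∃ R : ι → Finset κ, (∀ v ∈ Vs, R v ⊆ N v ∧ (R v).card = d) ∧
      ∀ i ∈ Qs, (Vs.filter fun v => i ∈ R v).card ≤ Λ := sorry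

/-- Sets that meet each of the disjoint sets `R 0, …, R (K - 1)` in one element, which is in `M t`. -/
theorem transversal_card {κ : Type*} [DecidableEq κ] (K : ℕ) (R M : ℕ → Finset κ)
    (F : Finset (Finset κ)) (h1 : ∀ I ∈ F, I ⊆ (range K).biUnion R)
    (h2 : ∀ I ∈ F, ∀ t < K, (I ∩ R t).card = 1) (h3 : ∀ I ∈ F, ∀ t < K, I ∩ R t ⊆ M t) :
    F.card ≤ ∏ t ∈ range K, (M t).card := sorry

/-- Numerics. -/
theorem numeric' (g h m a : ℕ) (hh : 1 ≤ h) (ha : 1 ≤ a)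
    (hd : (2 : ℝ) ^ ((g : ℝ) - h / 25000) ≤ a)
    (hp : a ^ 2 * 4 ^ m ≤ 4 ^ g * 3 ^ m) :
    2305 * (2 * m) < h := sorry

/-- The inequality of a step. -/
theorem step_ineq (d b : ℝ) (hd : 64 ≤ d) (hb : 0 ≤ b) :
    1 ≤ (1 / 4) * ((d - 1 - b) / (1 + b)) + (2 / d) * b := sorry

/-! ### Part 3 (helper84): file `Pool/Agent/H97/LIN/Select.lean` -/

theorem selection {ι κ : Type*} [DecidableEq ι] [DecidableEq κ] (Vs : Finset ι) (Qs : Finset κ)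
    (N : ι → Finset κ) (hN : ∀ v ∈ Vs, N v ⊆ Qs) (h : 2304 * Vs.card < Qs.card) :
    ∃ Q' ⊆ Qs, Q'.Nonempty ∧ ∃ R : ℕ → ι → Finset κ,
      (∀ v ∈ Vs, ∀ k, 256 * 2 ^ k ≤ (N v ∩ Q').card →
        R k v ⊆ N v ∩ Q' ∧ (R k v).card = 64 * 2 ^ k ∧ ∀ t < k, Disjoint (R k v) (R t v)) ∧
      (∀ k, ∀ i ∈ Q',
        (Vs.filter fun v => 256 * 2 ^ k ≤ (N v ∩ Q').card ∧ i ∈ R k v).card ≤ 4 ^ k) ∧
      (∀ i ∈ Q', ∑ v ∈ Vs.filter (fun v => i ∈ N v),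
        (2 : ℝ) ^ 17 / ((N v ∩ Q').card : ℝ) ^ 2 ≤ 1 / 2) := sorry

/-! ### Part 4 (helper97): files `Pool/Agent/H97/LIN/States.lean`, `UnitsLe.lean` -/

/-- Lemma U. -/
theorem units_le (J Q' : Finset (Finset α)) (v : Finset α) (hQ'J : Q' ⊆ J)
    (hdis : ∀ G ∈ Q', ∀ G' ∈ Q', G' ≠ G → Disjoint G' G) (hv : v ∈ J)
    (hb : ∀ j ∈ Q', ∀ x ∈ j, fr (unions J) x ≤ nfr (unions J) x)
    (K : ℕ) (R : ℕ → Finset (Finset α)) (hR : ∀ k < K, R k ⊆ Par Q' v)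
    (hRd : ∀ k < K, ∀ t < k, Disjoint (R k) (R t)) (hRc : ∀ k < K, (R k).card = 64 * 2 ^ k) :
    ((units J Q' v).card : ℝ) ≤
      ∑ k ∈ range K, (6 * ((k : ℝ) + 1) / (64 * 8 ^ k)) * ∑ i ∈ R k, ((nc J i).card : ℝ)
        + 2 / 4 ^ K * ∑ i ∈ Par Q' v, ((nc J i).card : ℝ) := sorry

/-! ### Part 5 (helper97 or first free): file `Pool/Agent/H97/LIN/ThmL.lean` -/

theorem thmL (V Q : Finset (Finset α)) (hVQ : Disjoint V Q) (hne : ∀ G ∈ V ∪ Q, G.Nonempty)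
    (hirr : ∀ G ∈ V ∪ Q, G ∉ unions ((V ∪ Q).erase G))
    (hQ : ∀ G ∈ Q, ∀ G' ∈ Q, G' ≠ G → Disjoint G' G)
    (hcard : 2304 * V.card < Q.card)
    (hb : ∀ x ∈ Q.sup id, fr (unions (V ∪ Q)) x ≤ nfr (unions (V ∪ Q)) x) :
    ∃ G ∈ Q, ∀ G' ∈ V ∪ Q, G' ≠ G → Disjoint G' G := sorry

end Pool.Agent.H97.LIN.Stubs
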